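import Pool.Agent.Helper46.Corner.Basic

/-!
Compression: a random linear map sends a rigid set with small projections into a small cube.
-/

namespace Pool.Agent.Helper46.Corner

open Finset

variable {G : Type*} [AddCommGroup G] [Module (ZMod 2) G] [Fintype G] [DecidableEq G]

noncomputable instance instFintypeDual : Fintype (Module.Dual (ZMod 2) G) := by
  classical
  exact Fintype.ofInjective (fun l : Module.Dual (ZMod 2) G => (fun x => l x : G → ZMod 2))
    (fun a b h => LinearMap.ext fun x => congrFun h x)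

lemma card_vanish (d : G) (hd : d ≠ 0) :
    2 * (univ.filter (fun l : Module.Dual (ZMod 2) G => l d = 0)).card
      = Fintype.card (Module.Dual (ZMod 2) G) := by
  obtain ⟨l0, h0⟩ : ∃ l0 : Module.Dual (ZMod 2) G, l0 d ≠ 0 := by
    by_contra h
    push Not at h
    exact hd ((Module.forall_dual_apply_eq_zero_iff (ZMod 2) d).1 h)
  have h1 : l0 d = 1 := by
    generalize l0 d = u at h0
    revert h0; revert u; decide
  have key : (univ.filter (fun l : Module.Dual (ZMod 2) G => l d = 0)).card
      = (univ.filter (fun l : Module.Dual (ZMod 2) G => ¬ l d = 0)).card := by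
    refine card_nbij' (fun l => l + l0) (fun l => l + l0) ?_ ?_ ?_ ?_
    · intro l hl
      simp only [coe_filter, mem_univ, true_and, Set.mem_setOf_eq, LinearMap.add_apply] at hl ⊢
      rw [hl, h1]; decide
    · intro l hl
      simp only [coe_filter, mem_univ, true_and, Set.mem_setOf_eq, LinearMap.add_apply] at hl ⊢
      rw [h1]
      generalize l d = u at hl
      revert hl; revert u; decide
    · intro l _
      ext x
      simp only [LinearMap.add_apply]
      generalize l x = u
      generalize l0 x = v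
      revert u v; decide
    · intro l _
      ext x
      simp only [LinearMap.add_apply]
      generalize l x = u
      generalize l0 x = v
      revert u v; decide
  have := card_filter_add_card_filter_not (s := (univ : Finset (Module.Dual (ZMod 2) G)))
    (fun l => l d = 0)
  rw [← key, card_univ] at this
  omega

/-- the map given by a tuple of functionals -/
def phi {n : ℕ} (L : Fin n → Module.Dual (ZMod 2) G) (x : G) : Fin n → ZMod 2 := fun i => L i x

lemma phi_add {n : ℕ} (L : Fin n → Module.Dual (ZMod 2) G) (x y : G) :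
    phi L (x + y) = phi L x + phi L y := by
  funext i; simp [phi]

lemma card_collide (n : ℕ) (x y : G) (hxy : x ≠ y) :
    2 ^ n * (univ.filter (fun L : Fin n → Module.Dual (ZMod 2) G => phi L x = phi L y)).card
      = Fintype.card (Fin n → Module.Dual (ZMod 2) G) := by
  have h : (univ.filter (fun L : Fin n → Module.Dual (ZMod 2) G => phi L x = phi L y))
      = Fintype.piFinset (fun _ : Fin n =>
        univ.filter (fun l : Module.Dual (ZMod 2) G => l (x - y) = 0)) := by
    ext L
    simp only [mem_filter, mem_univ, true_and, Fintype.mem_piFinset, map_sub, sub_eq_zero]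
    constructor
    · intro h i; exact congrFun h i
    · intro h; funext i; exact h i
  rw [h, Fintype.card_piFinset, prod_const, card_univ, Fintype.card_fin, ← mul_pow,
    card_vanish _ (sub_ne_zero.2 hxy), Fintype.card_fun, Fintype.card_fin]

lemma sum_bad (n : ℕ) (T : Finset (G × G × G)) (π : G × G × G → G) (k : ℕ)
    (hk : (T.image π).card ≤ k) :
    2 ^ n * ∑ L : Fin n → Module.Dual (ZMod 2) G,
      (T.filter (fun t => ∃ x ∈ T.image π, x ≠ π t ∧ phi L x = phi L (π t))).card
      ≤ T.card * k * Fintype.card (Fin n → Module.Dual (ZMod 2) G) := by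
  classical
  have h1 : ∀ L : Fin n → Module.Dual (ZMod 2) G,
      (T.filter (fun t => ∃ x ∈ T.image π, x ≠ π t ∧ phi L x = phi L (π t))).card
      ≤ ∑ t ∈ T, ∑ x ∈ T.image π, if (x ≠ π t ∧ phi L x = phi L (π t)) then 1 else 0 := by
    intro L
    rw [card_filter]
    apply sum_le_sum
    intro t _
    split_ifs with h
    · obtain ⟨x, hx, hx'⟩ := h
      calc 1 = (if (x ≠ π t ∧ phi L x = phi L (π t)) then 1 else 0) := by rw [if_pos hx']
        _ ≤ _ := single_le_sum (f := fun x => if (x ≠ π t ∧ phi L x = phi L (π t)) then 1 else 0)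
          (fun _ _ => Nat.zero_le _) hx
    · exact Nat.zero_le _
  calc _ ≤ 2 ^ n * ∑ L : Fin n → Module.Dual (ZMod 2) G, ∑ t ∈ T, ∑ x ∈ T.image π,
        (if (x ≠ π t ∧ phi L x = phi L (π t)) then 1 else 0) :=
        Nat.mul_le_mul_left _ (sum_le_sum fun L _ => h1 L)
    _ = ∑ t ∈ T, ∑ x ∈ T.image π, 2 ^ n * ∑ L : Fin n → Module.Dual (ZMod 2) G,
        (if (x ≠ π t ∧ phi L x = phi L (π t)) then 1 else 0) := by
        rw [sum_comm, mul_sum]
        apply sum_congr rfl
        intro t _
        rw [sum_comm, mul_sum]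
    _ ≤ ∑ t ∈ T, ∑ x ∈ T.image π, Fintype.card (Fin n → Module.Dual (ZMod 2) G) := by
        apply sum_le_sum
        intro t _
        apply sum_le_sum
        intro x _
        rw [← card_filter]
        by_cases hx : x = π t
        · rw [filter_false_of_mem]
          · simp
          · intro L _ h; exact h.1 hx
        · rw [← card_collide n x (π t) hx]
          apply Nat.mul_le_mul_left
          apply card_le_card
          intro L hL
          rw [mem_filter] at hL ⊢
          exact ⟨hL.1, hL.2.2⟩
    _ ≤ _ := by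
        simp only [sum_const, smul_eq_mul]
        rw [← mul_assoc]
        apply Nat.mul_le_mul_right
        exact Nat.mul_le_mul_left _ hk

theorem HasTF.compress {t a b c : ℕ} (h : HasTF G t a b c) (n : ℕ)
    (hn : 2 * (a + b + c) ≤ 2 ^ n) :
    ∃ A : Finset ((Fin n → ZMod 2) × (Fin n → ZMod 2)), CornerFree A ∧ t ≤ 2 * A.card := by
  classical
  obtain ⟨T, hT, rfl, ha, hb, hc⟩ := h
  set bad : (G × G × G → G) → (Fin n → Module.Dual (ZMod 2) G) → Finset (G × G × G) :=
    fun π L => T.filter (fun t => ∃ x ∈ T.image π, x ≠ π t ∧ phi L x = phi L (π t)) with hbad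
  set N := Fintype.card (Fin n → Module.Dual (ZMod 2) G) with hN
  have hNpos : 0 < N := Fintype.card_pos
  have s1 := sum_bad n T (fun t => t.1) a ha
  have s2 := sum_bad n T (fun t => t.2.1) b hb
  have s3 := sum_bad n T (fun t => t.2.2) c hc
  obtain ⟨L, hL⟩ : ∃ L : Fin n → Module.Dual (ZMod 2) G,
      2 * ((bad (fun t => t.1) L).card + (bad (fun t => t.2.1) L).card
        + (bad (fun t => t.2.2) L).card) ≤ T.card := by
    by_contra hcon
    push Not at hcon
    have h2 : ∑ _L : Fin n → Module.Dual (ZMod 2) G, (T.card + 1) ≤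
        ∑ L : Fin n → Module.Dual (ZMod 2) G, 2 * ((bad (fun t => t.1) L).card
          + (bad (fun t => t.2.1) L).card + (bad (fun t => t.2.2) L).card) :=
      sum_le_sum fun L _ => hcon L
    rw [sum_const, card_univ, smul_eq_mul, ← mul_sum, sum_add_distrib, sum_add_distrib] at h2
    have h3 : 2 ^ n * (N * (T.card + 1)) ≤ N * T.card * 2 ^ n := by
      calc 2 ^ n * (N * (T.card + 1)) ≤ 2 ^ n * (2 * (∑ L, (bad (fun t => t.1) L).card
            + ∑ L, (bad (fun t => t.2.1) L).card + ∑ L, (bad (fun t => t.2.2) L).card)) :=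
            Nat.mul_le_mul_left _ h2
        _ = 2 * (2 ^ n * ∑ L, (bad (fun t => t.1) L).card + 2 ^ n * ∑ L, (bad (fun t => t.2.1) L).card
            + 2 ^ n * ∑ L, (bad (fun t => t.2.2) L).card) := by ring
        _ ≤ 2 * (T.card * a * N + T.card * b * N + T.card * c * N) :=
            Nat.mul_le_mul_left _ (add_le_add (add_le_add s1 s2) s3)
        _ = N * T.card * (2 * (a + b + c)) := by ring
        _ ≤ N * T.card * 2 ^ n := Nat.mul_le_mul_left _ hn
    have h4 : 0 < 2 ^ n * N := by positivity
    nlinarith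
  set good := T \ (bad (fun t => t.1) L ∪ bad (fun t => t.2.1) L ∪ bad (fun t => t.2.2) L)
    with hgood
  have hcard : T.card ≤ 2 * good.card := by
    have h1 : T.card ≤ good.card + (bad (fun t => t.1) L ∪ bad (fun t => t.2.1) L
        ∪ bad (fun t => t.2.2) L).card := by
      rw [hgood]
      have := card_le_card (s := T) (t := (T \ (bad (fun t => t.1) L ∪ bad (fun t => t.2.1) L
        ∪ bad (fun t => t.2.2) L)) ∪ (bad (fun t => t.1) L ∪ bad (fun t => t.2.1) L
        ∪ bad (fun t => t.2.2) L)) (by intro x hx; rw [sdiff_union_self_eq_union];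
                                       exact mem_union_left _ hx)
      exact this.trans (card_union_le _ _)
    have h2 := card_union_le (bad (fun t => t.1) L ∪ bad (fun t => t.2.1) L)
      (bad (fun t => t.2.2) L)
    have h3 := card_union_le (bad (fun t => t.1) L) (bad (fun t => t.2.1) L)
    omega
  have inj : ∀ s ∈ good, ∀ t ∈ good, (phi L s.1 = phi L t.1 → s.1 = t.1) ∧
      (phi L s.2.1 = phi L t.2.1 → s.2.1 = t.2.1) ∧
      (phi L s.2.2 = phi L t.2.2 → s.2.2 = t.2.2) := by
    intro s hs t ht
    rw [hgood, mem_sdiff, mem_union, mem_union] at hs ht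
    push Not at hs ht
    obtain ⟨hs0, ⟨hs1, hs2⟩, hs3⟩ := hs
    obtain ⟨ht0, ⟨ht1, ht2⟩, ht3⟩ := ht
    refine ⟨fun h => ?_, fun h => ?_, fun h => ?_⟩
    · by_contra hne
      exact ht1 (mem_filter.2 ⟨ht0, s.1, mem_image_of_mem (fun t : G × G × G => t.1) hs0, hne, h⟩)
    · by_contra hne
      exact ht2 (mem_filter.2 ⟨ht0, s.2.1,
        mem_image_of_mem (fun t : G × G × G => t.2.1) hs0, hne, h⟩)
    · by_contra hne
      exact ht3 (mem_filter.2 ⟨ht0, s.2.2,
        mem_image_of_mem (fun t : G × G × G => t.2.2) hs0, hne, h⟩)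
  have hsub : ∀ t ∈ good, t ∈ T := fun t ht => (mem_sdiff.1 (hgood ▸ ht)).1
  refine ⟨good.image (fun t => (phi L t.1, phi L t.2.1)), ?_, ?_⟩
  · intro x y z hz ⟨h1, h2, h3⟩
    obtain ⟨a', ha', e1⟩ := mem_image.1 h1
    obtain ⟨b', hb', e2⟩ := mem_image.1 h2
    obtain ⟨c', hc', e3⟩ := mem_image.1 h3
    simp only [Prod.mk.injEq] at e1 e2 e3
    have k1 : a'.1 = b'.1 := (inj a' ha' b' hb').1 (by rw [e1.1, e2.1])
    have k2 : a'.2.1 = c'.2.1 := (inj a' ha' c' hc').2.1 (by rw [e1.2, e3.2])
    have hsumphi : ∀ t ∈ good, phi L t.1 + phi L t.2.1 + phi L t.2.2 = 0 := by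
      intro t ht
      rw [← phi_add, ← phi_add, hT.sum t (hsub t ht)]
      funext i; simp [phi]
    have k3 : b'.2.2 = c'.2.2 := by
      apply (inj b' hb' c' hc').2.2
      have q1 := hsumphi b' hb'
      have q2 := hsumphi c' hc'
      rw [e2.1, e2.2] at q1
      rw [e3.1, e3.2] at q2
      have q3 : x + (y + z) + phi L b'.2.2 = x + (y + z) + phi L c'.2.2 := by
        rw [q1, ← q2]; abel
      simpa using q3
    have k4 := hT.tri a' (hsub _ ha') b' (hsub _ hb') c' (hsub _ hc') k1 k2 k3
    have k5 : a'.2.1 = b'.2.1 := by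
      have q1 := hT.sum a' (hsub _ ha')
      have q2 := hT.sum b' (hsub _ hb')
      rw [k1, k4] at q1
      have : b'.1 + a'.2.1 + b'.2.2 = b'.1 + b'.2.1 + b'.2.2 := by rw [q1, q2]
      simpa using this
    apply hz
    have : y = y + z := by rw [← e2.2, ← k5, e1.2]
    simpa using this
  · rw [card_image_of_injOn]
    · exact hcard
    · intro s hs t ht h
      simp only [Prod.mk.injEq] at h
      have i1 := (inj s hs t ht).1 h.1
      have i2 := (inj s hs t ht).2.1 h.2
      have q1 := hT.sum s (hsub _ hs)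
      have q2 := hT.sum t (hsub _ ht)
      rw [i1, i2] at q1
      have : t.1 + t.2.1 + s.2.2 = t.1 + t.2.1 + t.2.2 := by rw [q1, q2]
      have i3 : s.2.2 = t.2.2 := by simpa using this
      exact Prod.ext i1 (Prod.ext i2 i3)

end Pool.Agent.Helper46.Corner
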