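import Pool.Agent.Helper46.Corner.Peel

/-!
Coverings of `(F_2^n)^2` by few corner-free sets. The covering lemma for groups is the one of the
library module `N68/Corner/Cover`.
-/

namespace Pool.Agent.Helper46.Corner

open Finset Filter Topology

/-- covering a group by translates of a set -/
lemma cover {H : Type*} [AddCommGroup H] [Fintype H] [DecidableEq H] (A : Finset H) (k : ℕ)
    (hk : Fintype.card H * (Fintype.card H - A.card) ^ k < Fintype.card H ^ k) :
    ∃ t : Fin k → H, ∀ h, ∃ i, h - t i ∈ A := by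
  classical
  by_contra hcon
  push Not at hcon
  have h1 : (univ : Finset (Fin k → H)) ⊆ (univ : Finset H).biUnion
      (fun h => Fintype.piFinset fun _ : Fin k => univ.filter fun t => h - t ∉ A) := by
    intro t _
    obtain ⟨h, hh⟩ := hcon t
    rw [mem_biUnion]
    refine ⟨h, mem_univ _, ?_⟩
    rw [Fintype.mem_piFinset]
    intro i
    rw [mem_filter]
    exact ⟨mem_univ _, hh i⟩
  have h2 := (card_le_card h1).trans card_biUnion_le
  have h3 : ∀ h : H, (univ.filter fun t => h - t ∉ A).card = Fintype.card H - A.card := by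
    intro h
    have e1 : (univ.filter fun t => h - t ∈ A).card = A.card := by
      apply card_bij (fun t _ => h - t)
      · intro t ht
        exact (mem_filter.1 ht).2
      · intro t _ t' _ e
        exact sub_right_injective e
      · intro b hb
        exact ⟨h - b, by rw [mem_filter]; exact ⟨mem_univ _, by rwa [sub_sub_cancel]⟩,
          sub_sub_cancel _ _⟩
    have e2 := card_filter_add_card_filter_not (s := (univ : Finset H)) (fun t => h - t ∈ A)
    rw [e1, card_univ] at e2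
    omega
  simp only [Fintype.card_piFinset, h3, prod_const, card_univ, Fintype.card_fin, sum_const,
    smul_eq_mul, Fintype.card_fun] at h2
  exact absurd h2 (not_le.2 hk)

/-- covering a group by few translates of a set -/
lemma cover_real {H : Type*} [AddCommGroup H] [Fintype H] [DecidableEq H] (A : Finset H)
    (hA : 0 < A.card) : ∃ (k : ℕ) (t : Fin k → H), (∀ h, ∃ i, h - t i ∈ A) ∧
      (k : ℝ) ≤ Real.log (Fintype.card H) * (Fintype.card H / A.card) + 1 := by
  have hA0 : (0 : ℝ) < A.card := by exact_mod_cast hA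
  have hle : A.card ≤ Fintype.card H := card_le_univ A
  have hAH : (A.card : ℝ) ≤ Fintype.card H := by exact_mod_cast hle
  have hH0 : (0 : ℝ) < Fintype.card H := by linarith
  have hH1 : (1 : ℝ) ≤ Fintype.card H := by
    have : 1 ≤ Fintype.card H := by omega
    exact_mod_cast this
  set ρ : ℝ := (A.card : ℝ) / Fintype.card H with hρ
  have hρ0 : 0 < ρ := by positivity
  have hρ1 : ρ ≤ 1 := by rw [hρ, div_le_one hH0]; exact hAH
  set ℓ : ℝ := Real.log (Fintype.card H) with hℓ
  have hℓ0 : 0 ≤ ℓ := Real.log_nonneg hH1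
  set k : ℕ := ⌊ℓ / ρ⌋₊ + 1 with hk
  have hk1 : ℓ / ρ < k := by
    rw [hk]
    push_cast
    exact Nat.lt_floor_add_one _
  have hk2 : (k : ℝ) ≤ ℓ / ρ + 1 := by
    rw [hk]
    push_cast
    have : (⌊ℓ / ρ⌋₊ : ℝ) ≤ ℓ / ρ := Nat.floor_le (by positivity)
    linarith
  have hcov : Fintype.card H * (Fintype.card H - A.card) ^ k < Fintype.card H ^ k := by
    have : ((Fintype.card H : ℝ) * ((Fintype.card H : ℝ) - A.card) ^ k) <
        (Fintype.card H : ℝ) ^ k := by
      have e1 : (Fintype.card H : ℝ) - A.card = Fintype.card H * (1 - ρ) := by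
        rw [hρ]
        field_simp
      have e2 : 1 - ρ ≤ Real.exp (-ρ) := by
        have := Real.add_one_le_exp (-ρ)
        linarith
      have e3 : (1 - ρ) ^ k ≤ Real.exp (-(ρ * k)) := by
        calc (1 - ρ) ^ k ≤ Real.exp (-ρ) ^ k := pow_le_pow_left₀ (by linarith) e2 k
          _ = Real.exp (-(ρ * k)) := by
            rw [← Real.exp_nat_mul]
            congr 1
            ring
      have e4 : Real.exp (-(ρ * k)) < Real.exp (-ℓ) := by
        apply Real.exp_lt_exp.2
        rw [div_lt_iff₀ hρ0] at hk1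
        linarith
      have e5 : Real.exp (-ℓ) = (Fintype.card H : ℝ)⁻¹ := by
        rw [Real.exp_neg, hℓ, Real.exp_log hH0]
      rw [e1, mul_pow]
      have hHk : (0 : ℝ) < (Fintype.card H : ℝ) ^ k := by positivity
      calc (Fintype.card H : ℝ) * ((Fintype.card H : ℝ) ^ k * (1 - ρ) ^ k)
          = (Fintype.card H : ℝ) ^ k * ((Fintype.card H : ℝ) * (1 - ρ) ^ k) := by ring
        _ < (Fintype.card H : ℝ) ^ k * 1 := by
          apply mul_lt_mul_of_pos_left _ hHk
          calc (Fintype.card H : ℝ) * (1 - ρ) ^ k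
              ≤ (Fintype.card H : ℝ) * Real.exp (-(ρ * k)) :=
                mul_le_mul_of_nonneg_left e3 hH0.le
            _ < (Fintype.card H : ℝ) * Real.exp (-ℓ) := mul_lt_mul_of_pos_left e4 hH0
            _ = 1 := by rw [e5, mul_inv_cancel₀ hH0.ne']
        _ = _ := mul_one _
    have h2 : (((Fintype.card H - A.card : ℕ) : ℕ) : ℝ) = (Fintype.card H : ℝ) - A.card := by
      rw [Nat.cast_sub hle]
    rw [← h2] at this
    exact_mod_cast this
  obtain ⟨t, ht⟩ := cover A k hcov
  refine ⟨k, t, ht, hk2.trans (le_of_eq ?_)⟩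
  rw [hρ, div_div_eq_mul_div, mul_div_assoc]

/-- translates of corner-free sets are corner-free -/
lemma CornerFree.translate {G : Type*} [AddCommGroup G] [DecidableEq G] {A : Finset (G × G)}
    (hA : CornerFree A) (t : G × G) : CornerFree (A.image (fun p => p + t)) := by
  have key : ∀ x y : G, (x, y) ∈ A.image (fun p => p + t) → (x - t.1, y - t.2) ∈ A := by
    intro x y h
    obtain ⟨p, hp, e⟩ := mem_image.1 h
    have e1 : p.1 + t.1 = x := congrArg Prod.fst e
    have e2 : p.2 + t.2 = y := congrArg Prod.snd e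
    rw [← e1, ← e2, add_sub_cancel_right, add_sub_cancel_right]
    exact hp
  intro x y z hz h
  refine hA (x - t.1) (y - t.2) z hz ⟨key _ _ h.1, ?_, ?_⟩
  · have := key _ _ h.2.1
    rwa [add_sub_right_comm] at this
  · have := key _ _ h.2.2
    rwa [add_sub_right_comm] at this

/-- **Covering theorem.** -/
theorem exists_cover {b c : ℝ} (hb : 1 < b) (hbc : b < c)
    (h : ∃ n0 : ℕ, ∀ n : ℕ, n0 ≤ n → ∃ A : Finset ((Fin n → ZMod 2) × (Fin n → ZMod 2)),
      CornerFree A ∧ ((4 : ℝ) / b) ^ n ≤ A.card) :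
    ∃ n0 : ℕ, ∀ n, n0 ≤ n →
      ∃ 𝒜 : Finset (Finset ((Fin n → ZMod 2) × (Fin n → ZMod 2))),
        (∀ A ∈ 𝒜, CornerFree A) ∧ (𝒜.card : ℝ) ≤ c ^ n ∧ (∀ p, ∃ A ∈ 𝒜, p ∈ A) ∧
          ∃ A ∈ 𝒜, ((4 : ℝ) / c) ^ n ≤ A.card := by
  classical
  have hb0 : 0 < b := by linarith
  have hc0 : 0 < c := by linarith
  obtain ⟨n1, h1⟩ := h
  have hr : |b / c| < 1 := by
    rw [abs_of_nonneg (by positivity), div_lt_one hc0]
    exact hbc
  have hlim := tendsto_pow_const_mul_const_pow_of_abs_lt_one 1 hr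
  set M : ℝ := Real.log 4 + 1 with hM
  have hlog : 0 ≤ Real.log 4 := Real.log_nonneg (by norm_num)
  have hM0 : 0 < M := by linarith
  have hev := hlim.eventually (gt_mem_nhds (show (0 : ℝ) < 1 / M by positivity))
  obtain ⟨n2, hn2⟩ := eventually_atTop.1 hev
  refine ⟨max (max n1 n2) 1, fun n hn => ?_⟩
  obtain ⟨A, hA, hAc⟩ := h1 n ((le_max_left _ _).trans ((le_max_left _ _).trans hn))
  have hn2' := hn2 n ((le_max_right _ _).trans ((le_max_left _ _).trans hn))
  have hn' : 1 ≤ n := (le_max_right _ _).trans hn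
  have hnR : (1 : ℝ) ≤ n := by exact_mod_cast hn'
  have hHc : (Fintype.card ((Fin n → ZMod 2) × (Fin n → ZMod 2)) : ℝ) = (4 : ℝ) ^ n := by
    rw [Fintype.card_prod, Fintype.card_fun, ZMod.card, Fintype.card_fin]
    push_cast
    rw [← mul_pow]
    norm_num
  have hA0 : (0 : ℝ) < A.card := lt_of_lt_of_le (by positivity) hAc
  obtain ⟨k, t, ht, hk⟩ := cover_real A (by exact_mod_cast hA0)
  rw [hHc] at hk
  refine ⟨univ.image (fun i => A.image (fun p => p + t i)), ?_, ?_, ?_, ?_⟩
  · intro B hB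
    obtain ⟨i, _, rfl⟩ := mem_image.1 hB
    exact hA.translate (t i)
  · have h3 : ((univ.image (fun i => A.image (fun p => p + t i))).card : ℝ) ≤ k := by
      have := card_image_le (s := (univ : Finset (Fin k))) (f := fun i => A.image (fun p => p + t i))
      rw [card_univ, Fintype.card_fin] at this
      exact_mod_cast this
    refine h3.trans (hk.trans ?_)
    have h4 : (4 : ℝ) ^ n / A.card ≤ b ^ n := by
      rw [div_le_iff₀ hA0]
      rw [div_pow, div_le_iff₀ (by positivity)] at hAc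
      linarith
    have h5 : (1 : ℝ) ≤ b ^ n := one_le_pow₀ (by linarith)
    have h8 : Real.log ((4 : ℝ) ^ n) = n * Real.log 4 := by
      rw [Real.log_pow]
    rw [h8]
    have h6 : n * Real.log 4 * ((4 : ℝ) ^ n / A.card) + 1 ≤ M * n * b ^ n := by
      have e1 : n * Real.log 4 * ((4 : ℝ) ^ n / A.card) ≤ n * Real.log 4 * b ^ n :=
        mul_le_mul_of_nonneg_left h4 (by positivity)
      have e2 : (1 : ℝ) ≤ n * b ^ n := by nlinarith
      calc _ ≤ n * Real.log 4 * b ^ n + n * b ^ n := by linarith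
        _ = M * n * b ^ n := by rw [hM]; ring
    have h7 : M * n * b ^ n ≤ c ^ n := by
      have hcn : 0 < c ^ n := by positivity
      rw [pow_one, div_pow, lt_div_iff₀ hM0, ← mul_div_assoc, div_mul_eq_mul_div,
        div_lt_one hcn] at hn2'
      calc M * n * b ^ n = n * b ^ n * M := by ring
        _ ≤ c ^ n := hn2'.le
    linarith
  · intro p
    obtain ⟨i, hi⟩ := ht p
    exact ⟨_, mem_image.2 ⟨i, mem_univ _, rfl⟩, mem_image.2 ⟨p - t i, hi, sub_add_cancel _ _⟩⟩
  · obtain ⟨i, _⟩ := ht 0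
    refine ⟨_, mem_image.2 ⟨i, mem_univ _, rfl⟩, ?_⟩
    rw [card_image_of_injective _ (add_left_injective (t i))]
    refine le_trans ?_ hAc
    apply pow_le_pow_left₀ (by positivity)
    exact div_le_div_of_nonneg_left (by norm_num) hb0 hbc.le

/-- From `2 ^ (3 q n) ≤ |S| ^ p` to `(4 / b) ^ n ≤ |S|`. -/
lemma rate_of_pow {p q : ℕ} (hp : 0 < p) {b : ℝ} (hb : 0 < b) (hbq : (4 / b) ^ p ≤ (8 : ℝ) ^ q)
    {n s : ℕ} (h : 2 ^ (3 * q * n) ≤ s ^ p) : ((4 : ℝ) / b) ^ n ≤ s := by
  have h1 : ((2 : ℝ)) ^ (3 * q * n) ≤ (s : ℝ) ^ p := by exact_mod_cast h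
  have h2 : (((4 : ℝ) / b) ^ n) ^ p ≤ (s : ℝ) ^ p := by
    calc (((4 : ℝ) / b) ^ n) ^ p = ((4 / b) ^ p) ^ n := by rw [← pow_mul, ← pow_mul, mul_comm]
      _ ≤ ((8 : ℝ) ^ q) ^ n := pow_le_pow_left₀ (by positivity) hbq n
      _ = (2 : ℝ) ^ (3 * q * n) := by
        rw [show (8 : ℝ) = 2 ^ 3 by norm_num, ← pow_mul, ← pow_mul, mul_assoc]
      _ ≤ _ := h1
  exact (pow_le_pow_iff_left₀ (by positivity) (by positivity) hp.ne').1 h2

/-- the numerical condition of `rate_of_pow` with integers, `b = v / u` -/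
lemma rate_num {p q u v : ℕ} (hu : 0 < u) (hv : 0 < v) (h : (4 * u) ^ p ≤ 8 ^ q * v ^ p) :
    ((4 : ℝ) / ((v : ℝ) / u)) ^ p ≤ (8 : ℝ) ^ q := by
  have hu' : (0 : ℝ) < u := by exact_mod_cast hu
  have hv' : (0 : ℝ) < v := by exact_mod_cast hv
  have h1 : ((4 : ℝ) * u) ^ p ≤ (8 : ℝ) ^ q * (v : ℝ) ^ p := by exact_mod_cast h
  rw [div_div_eq_mul_div, div_pow, div_le_iff₀ (by positivity)]
  exact h1

end Pool.Agent.Helper46.Corner
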