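import Pool.Agent.Helper46.Corner.Types

/-!
Asymptotic conclusion: a peeling certificate and weights give corner-free sets in all large
dimensions.
-/

namespace Pool.Agent.Helper46.Corner

open Finset

theorem asymptotic {G : Type*} [AddCommGroup G] [Module (ZMod 2) G] [Fintype G] [DecidableEq G]
    {t A B C p q : ℕ} (h : HasTF G t A B C) (hp : 0 < p)
    (hpq : 2 * (A * B * C) ^ q ≤ t ^ p) (hP : 2 ≤ A * B * C) :
    ∃ n0 : ℕ, ∀ n : ℕ, n0 ≤ n → ∃ S : Finset ((Fin n → ZMod 2) × (Fin n → ZMod 2)),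
      CornerFree S ∧ 2 ^ (3 * q * n) ≤ S.card ^ p := by
  classical
  have h3 := h.prod (h.rot.prod h.rot.rot)
  set P := A * B * C with hPdef
  have e1 : A * (B * C) = P := by rw [hPdef]; ring
  have e2 : B * (C * A) = P := by rw [hPdef]; ring
  have e3 : C * (A * B) = P := by rw [hPdef]; ring
  rw [e1, e2, e3] at h3
  clear_value P
  set K0 := 2 ^ p * 6 ^ (3 * q) * P ^ (3 * q) with hK0
  refine ⟨6 * P ^ K0, fun n hn => ?_⟩
  have hlt : n < 2 ^ n := Nat.lt_two_pow_self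
  have hdiv : P ^ K0 ≤ 2 ^ n / 6 := by
    rw [Nat.le_div_iff_mul_le (by norm_num)]
    linarith
  have hPpos : 0 < P := by omega
  have hne : 2 ^ n / 6 ≠ 0 := by
    have : 0 < P ^ K0 := pow_pos hPpos _
    omega
  set M := Nat.log P (2 ^ n / 6) with hM
  have hM1 : P ^ M ≤ 2 ^ n / 6 := Nat.pow_log_le_self P hne
  have hM2 : 2 ^ n / 6 < P ^ (M + 1) := Nat.lt_pow_succ_log_self (by omega) _
  have hMK : K0 ≤ M := by
    rw [hM]
    exact Nat.le_log_of_pow_le (by omega) hdiv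
  have hM3 : 2 ^ n < 6 * P ^ (M + 1) := by
    have := (Nat.div_lt_iff_lt_mul (by norm_num : 0 < 6)).1 hM2
    linarith
  have hM4 : 2 * (P ^ M + P ^ M + P ^ M) ≤ 2 ^ n := by
    have := (Nat.le_div_iff_mul_le (by norm_num : 0 < 6)).1 hM1
    linarith
  obtain ⟨S, hS, hcard⟩ := (h3.pow M).compress n hM4
  refine ⟨S, hS, ?_⟩
  have k1 : (2 * P ^ q) ^ (3 * M) ≤ (2 * S.card) ^ p := by
    calc (2 * P ^ q) ^ (3 * M) ≤ (t ^ p) ^ (3 * M) := Nat.pow_le_pow_left hpq _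
      _ = ((t * (t * t)) ^ M) ^ p := by
        have : t * (t * t) = t ^ 3 := by ring
        rw [this, ← pow_mul, ← pow_mul, ← pow_mul]
        congr 1; ring
      _ ≤ (2 * S.card) ^ p := Nat.pow_le_pow_left hcard _
  have k2 : 2 ^ (3 * q * n) ≤ 6 ^ (3 * q) * P ^ (3 * q) * P ^ (3 * q * M) := by
    calc 2 ^ (3 * q * n) = (2 ^ n) ^ (3 * q) := by rw [← pow_mul]; congr 1; ring
      _ ≤ (6 * P ^ (M + 1)) ^ (3 * q) := Nat.pow_le_pow_left hM3.le _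
      _ = 6 ^ (3 * q) * P ^ (3 * q) * P ^ (3 * q * M) := by
        rw [mul_pow, ← pow_mul, mul_assoc, ← pow_add]
        congr 2; ring
  have k3 : K0 ≤ 2 ^ (3 * M) := by
    calc K0 ≤ M := hMK
      _ ≤ 3 * M := by omega
      _ ≤ 2 ^ (3 * M) := Nat.lt_two_pow_self.le
  have k4 : 2 ^ p * 2 ^ (3 * q * n) ≤ 2 ^ p * S.card ^ p := by
    calc 2 ^ p * 2 ^ (3 * q * n)
        ≤ 2 ^ p * (6 ^ (3 * q) * P ^ (3 * q) * P ^ (3 * q * M)) := Nat.mul_le_mul_left _ k2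
      _ = K0 * P ^ (3 * q * M) := by rw [hK0]; ring
      _ ≤ 2 ^ (3 * M) * P ^ (3 * q * M) := Nat.mul_le_mul_right _ k3
      _ = (2 * P ^ q) ^ (3 * M) := by
        rw [mul_pow, ← pow_mul]
        congr 2; ring
      _ ≤ (2 * S.card) ^ p := k1
      _ = 2 ^ p * S.card ^ p := by rw [mul_pow]
  exact Nat.le_of_mul_le_mul_left k4 (by positivity)

theorem main {k m : ℕ} {X Y Z : Fin m → (Fin k → ZMod 2)} {cert : Fin m → Fin 3}
    (hc : Cert X Y Z cert) (a b c : (Fin k → ZMod 2) → ℝ)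
    (ha : ∀ x, 0 ≤ a x) (hb : ∀ x, 0 ≤ b x) (hcc : ∀ x, 0 ≤ c x) (p q : ℕ) (hp : 0 < p)
    (hq : 0 < q)
    (ha1 : ∑ x, a x ^ p ≤ 1) (hb1 : ∑ x, b x ^ p ≤ 1) (hc1 : ∑ x, c x ^ p ≤ 1)
    (hC : 1 < ∑ s, (a (X s) * b (Y s) * c (Z s)) ^ q) :
    ∃ n0 : ℕ, ∀ n : ℕ, n0 ≤ n → ∃ S : Finset ((Fin n → ZMod 2) × (Fin n → ZMod 2)),
      CornerFree S ∧ 2 ^ (3 * q * n) ≤ S.card ^ p := by
  obtain ⟨N, t, A1, B1, C1, h, h1, h2⟩ := exists_good hc a b c ha hb hcc p q hp hq ha1 hb1 hc1 hC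
  exact asymptotic h hp h1 h2

end Pool.Agent.Helper46.Corner
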