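import Pool.Agent.Helper46.Corner.Codes

/-!
A fast kernel test of peeling certificates for sets of cells of the addition table of `F_2^k`.
-/

namespace Pool.Agent.Helper46.Corner

open Finset

open Classical in
/-- the number `< 2 ^ k` with given binary digits -/
noncomputable def code {k : ℕ} (v : Fin k → ZMod 2) : ℕ :=
  if h : ∃ n, n < 2 ^ k ∧ bits k n = v then h.choose else 0

lemma code_bits {k n : ℕ} (hn : n < 2 ^ k) : code (bits k n) = n := by
  have h : ∃ n', n' < 2 ^ k ∧ bits k n' = bits k n := ⟨n, hn, rfl⟩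
  rw [code, dif_pos h]
  exact bits_inj h.choose_spec.1 hn h.choose_spec.2

lemma bits_injOn (k : ℕ) : Set.InjOn (bits k) (range (2 ^ k) : Finset ℕ) := by
  intro a ha b hb h
  exact bits_inj (mem_range.1 (mem_coe.1 ha)) (mem_range.1 (mem_coe.1 hb)) h

lemma image_bits (k : ℕ) : (range (2 ^ k)).image (bits k) = univ := by
  apply eq_univ_of_card
  rw [card_image_of_injOn (bits_injOn k), card_range, Fintype.card_fun, ZMod.card,
    Fintype.card_fin]

lemma sum_code (k : ℕ) (f : ℕ → ℝ) :
    ∑ x : Fin k → ZMod 2, f (code x) = ∑ i ∈ range (2 ^ k), f i := by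
  rw [← image_bits k, sum_image (bits_injOn k)]
  exact sum_congr rfl (fun i hi => by rw [code_bits (mem_range.1 hi)])

/-- all numbers below `n` satisfy `f` -/
def allLt (f : ℕ → Bool) (n : ℕ) : Bool := Nat.rec true (fun i ih => (f i).and ih) n

lemma allLt_iff {f : ℕ → Bool} {n : ℕ} (h : allLt f n = true) : ∀ i < n, f i = true := by
  induction n with
  | zero => intro i hi; omega
  | succ n ih =>
    have h' : (f n && allLt f n) = true := h
    rw [Bool.and_eq_true] at h'
    intro i hi
    rcases Nat.lt_succ_iff_lt_or_eq.1 hi with h1 | h1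
    · exact ih h'.2 i h1
    · rw [h1]; exact h'.1

/-- sum of the values below `n` -/
def sumLt (f : ℕ → ℕ) (n : ℕ) : ℕ := Nat.rec 0 (fun i ih => f i + ih) n

lemma sumLt_eq (f : ℕ → ℕ) (n : ℕ) : sumLt f n = ∑ i ∈ range n, f i := by
  induction n with
  | zero => rfl
  | succ n ih =>
    have h : sumLt f (n + 1) = f n + sumLt f n := rfl
    rw [h, ih, sum_range_succ, add_comm]

/-- the `i`-th entry of a table with entries of `B` binary digits -/
def look (T B i : ℕ) : ℕ := Nat.mod (Nat.shiftRight T (Nat.mul B i)) (Nat.pow 2 B)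

/-- the test at the cell number `s` and the shift `z`; `O` lists the cells in peeling order, `T` is
the table of the positions (plus one) of the cells in this order, `R` lists the roles -/
def okAt (k B T R O s z : ℕ) : Bool :=
  (Nat.beq z 0).or
    ((fun c : ℕ => (fun x y r : ℕ =>
      (fun a b d : Bool => cond (Nat.beq r 0) (a.or b) (cond (Nat.beq r 1) (a.or d)
        (cond (Nat.beq r 2) (b.or d) false)))
        (Nat.ble (look T B (Nat.add (Nat.mul x (Nat.pow 2 k)) (Nat.xor y z))) (Nat.succ s))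
        (Nat.ble (look T B (Nat.add (Nat.mul (Nat.xor x z) (Nat.pow 2 k)) y)) (Nat.succ s))
        (Nat.ble (look T B (Nat.add (Nat.mul (Nat.xor x z) (Nat.pow 2 k)) (Nat.xor y z)))
          (Nat.succ s)))
      (Nat.div c (Nat.pow 2 k)) (Nat.mod c (Nat.pow 2 k)) (look R 2 s)) (look O B s))

/-- the whole test -/
def okAll (k B T R O m : ℕ) : Bool :=
  (allLt (fun s => (Nat.ble (Nat.succ (look O B s)) (Nat.pow 4 k)).and
    (Nat.beq (look T B (look O B s)) (Nat.succ s))) m).and
  (allLt (fun s => allLt (fun z => okAt k B T R O s z) (Nat.pow 2 k)) m)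

/-- row, column of the cell number `s` -/
def xo (k B O s : ℕ) : ℕ := look O B s / 2 ^ k
@[inherit_doc xo] def yo (k B O s : ℕ) : ℕ := look O B s % 2 ^ k

lemma okAt_iff {k B T R O s z : ℕ} (h : okAt k B T R O s z = true) : z = 0 ∨
    (look R 2 s = 0 ∧ (look T B (xo k B O s * 2 ^ k + (yo k B O s ^^^ z)) ≤ s + 1 ∨
      look T B ((xo k B O s ^^^ z) * 2 ^ k + yo k B O s) ≤ s + 1)) ∨
    (look R 2 s = 1 ∧ (look T B (xo k B O s * 2 ^ k + (yo k B O s ^^^ z)) ≤ s + 1 ∨
      look T B ((xo k B O s ^^^ z) * 2 ^ k + (yo k B O s ^^^ z)) ≤ s + 1)) ∨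
    (look R 2 s = 2 ∧ (look T B ((xo k B O s ^^^ z) * 2 ^ k + yo k B O s) ≤ s + 1 ∨
      look T B ((xo k B O s ^^^ z) * 2 ^ k + (yo k B O s ^^^ z)) ≤ s + 1)) := by
  have h' : (Nat.beq z 0 || cond (Nat.beq (look R 2 s) 0)
      (Nat.ble (look T B (xo k B O s * 2 ^ k + (yo k B O s ^^^ z))) (s + 1) ||
        Nat.ble (look T B ((xo k B O s ^^^ z) * 2 ^ k + yo k B O s)) (s + 1))
      (cond (Nat.beq (look R 2 s) 1)
        (Nat.ble (look T B (xo k B O s * 2 ^ k + (yo k B O s ^^^ z))) (s + 1) ||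
          Nat.ble (look T B ((xo k B O s ^^^ z) * 2 ^ k + (yo k B O s ^^^ z))) (s + 1))
        (cond (Nat.beq (look R 2 s) 2)
          (Nat.ble (look T B ((xo k B O s ^^^ z) * 2 ^ k + yo k B O s)) (s + 1) ||
            Nat.ble (look T B ((xo k B O s ^^^ z) * 2 ^ k + (yo k B O s ^^^ z))) (s + 1))
          false))) = true := h
  rw [Bool.or_eq_true] at h'
  rcases h' with h' | h'
  · exact Or.inl (Nat.eq_of_beq_eq_true h')
  right
  by_cases h0 : look R 2 s = 0
  · left
    have e0 : Nat.beq (look R 2 s) 0 = true := by rw [h0]; rfl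
    rw [e0, cond_true, Bool.or_eq_true] at h'
    exact ⟨h0, h'.imp Nat.le_of_ble_eq_true Nat.le_of_ble_eq_true⟩
  have e0 : Nat.beq (look R 2 s) 0 = false := by
    rw [Bool.eq_false_iff]; intro h; exact h0 (Nat.eq_of_beq_eq_true h)
  rw [e0, cond_false] at h'
  right
  by_cases h1 : look R 2 s = 1
  · left
    have e1 : Nat.beq (look R 2 s) 1 = true := by rw [h1]; rfl
    rw [e1, cond_true, Bool.or_eq_true] at h'
    exact ⟨h1, h'.imp Nat.le_of_ble_eq_true Nat.le_of_ble_eq_true⟩
  have e1 : Nat.beq (look R 2 s) 1 = false := by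
    rw [Bool.eq_false_iff]; intro h; exact h1 (Nat.eq_of_beq_eq_true h)
  rw [e1, cond_false] at h'
  right
  by_cases h2 : look R 2 s = 2
  · have e2 : Nat.beq (look R 2 s) 2 = true := by rw [h2]; rfl
    rw [e2, cond_true, Bool.or_eq_true] at h'
    exact ⟨h2, h'.imp Nat.le_of_ble_eq_true Nat.le_of_ble_eq_true⟩
  have e2 : Nat.beq (look R 2 s) 2 = false := by
    rw [Bool.eq_false_iff]; intro h; exact h2 (Nat.eq_of_beq_eq_true h)
  rw [e2, cond_false] at h'
  exact absurd h' (by decide)

/-- From the test to corner-free sets. -/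
theorem main_peel {k m B T R O D p q : ℕ} (an bn cn : ℕ → ℕ)
    (hD : 0 < D) (hp : 0 < p) (hq : 0 < q) (hchk : okAll k B T R O m = true)
    (ha : sumLt (fun i => an i ^ p) (2 ^ k) ≤ D ^ p)
    (hb : sumLt (fun i => bn i ^ p) (2 ^ k) ≤ D ^ p)
    (hc : sumLt (fun i => cn i ^ p) (2 ^ k) ≤ D ^ p)
    (hC : D ^ (3 * q) < sumLt (fun s => (an (xo k B O s) * bn (yo k B O s)
      * cn (xo k B O s ^^^ yo k B O s)) ^ q) m) :
    ∃ n0 : ℕ, ∀ n : ℕ, n0 ≤ n → ∃ S : Finset ((Fin n → ZMod 2) × (Fin n → ZMod 2)),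
      CornerFree S ∧ 2 ^ (3 * q * n) ≤ S.card ^ p := by
  obtain ⟨hk1, hk2⟩ := (Bool.and_eq_true _ _).mp hchk
  have H1 : ∀ s < m, look O B s < 4 ^ k ∧ look T B (look O B s) = s + 1 := by
    intro s hs
    obtain ⟨h1, h2⟩ := (Bool.and_eq_true _ _).mp (allLt_iff hk1 s hs)
    exact ⟨Nat.le_of_ble_eq_true h1, Nat.eq_of_beq_eq_true h2⟩
  have H2 : ∀ s < m, ∀ z < 2 ^ k, okAt k B T R O s z = true := fun s hs z hz =>
    allLt_iff (allLt_iff hk2 s hs) z hz
  have h2k : 0 < 2 ^ k := by positivity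
  have hx : ∀ s < m, xo k B O s < 2 ^ k := by
    intro s hs
    refine Nat.div_lt_of_lt_mul ?_
    rw [← mul_pow]
    exact (H1 s hs).1
  have hy : ∀ s < m, yo k B O s < 2 ^ k := fun s _ => Nat.mod_lt _ h2k
  have hcode : ∀ s, xo k B O s * 2 ^ k + yo k B O s = look O B s := fun s =>
    Nat.div_add_mod' _ _
  have hpos : ∀ s < m, look T B (xo k B O s * 2 ^ k + yo k B O s) = s + 1 := fun s hs => by
    rw [hcode]; exact (H1 s hs).2
  have hinj : ∀ s < m, ∀ t < m, xo k B O s = xo k B O t → yo k B O s = yo k B O t → s = t := by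
    intro s hs t ht h1 h2
    have e1 := hpos s hs
    rw [h1, h2, hpos t ht] at e1
    omega
  have hz : ∀ s < m, xo k B O s ^^^ yo k B O s < 2 ^ k := fun s hs =>
    Nat.xor_lt_two_pow (hx s hs) (hy s hs)
  -- roles
  have hrole : ∀ s < m, look R 2 s < 3 ∨ 2 ^ k = 1 := by
    intro s hs
    rcases Nat.lt_or_ge 1 (2 ^ k) with h | h
    · left
      rcases okAt_iff (H2 s hs 1 h) with h | h | h | h
      · omega
      · omega
      · omega
      · omega
    · right; omega
  -- if `2 ^ k = 1` there is at most one cell; treat the roles uniformly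
  let ce : ℕ → ℕ := fun s => if look R 2 s < 3 then look R 2 s else 0
  have hce : ∀ s < m, ce s < 3 := by
    intro s _
    simp only [ce]
    split_ifs with h
    · exact h
    · norm_num
  have hceR : ∀ s < m, ∀ z < 2 ^ k, z ≠ 0 → ce s = look R 2 s := by
    intro s hs z hz hz0
    simp only [ce]
    rw [if_pos]
    rcases hrole s hs with h | h
    · exact h
    · omega
  have hcert := cert_of_codes (k := k) (m := m) (xo k B O) (yo k B O) ce hx hy hinj
    (by
      intro a ha h b hb hab hX c hc hac hY hE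
      have hz1 : yo k B O a ^^^ yo k B O b < 2 ^ k := Nat.xor_lt_two_pow (hy a ha) (hy b hb)
      have hzb : yo k B O a ^^^ (yo k B O a ^^^ yo k B O b) = yo k B O b := by
        rw [← Nat.xor_assoc, Nat.xor_self, Nat.zero_xor]
      have hzc : xo k B O a ^^^ (yo k B O a ^^^ yo k B O b) = xo k B O c := by
        rw [hX, hY, Nat.xor_comm (yo k B O c), ← Nat.xor_assoc, hE, Nat.xor_assoc, Nat.xor_self,
          Nat.xor_zero]
      rcases Nat.eq_zero_or_pos (yo k B O a ^^^ yo k B O b) with h0 | h0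
      · rw [h0, Nat.xor_zero] at hzb
        have := hinj a ha b hb hX hzb
        omega
      have hr := hceR a ha _ hz1 (by omega)
      rw [h] at hr
      rcases okAt_iff (H2 a ha _ hz1) with h3 | h3 | h3 | h3
      · omega
      · rw [hzb, hzc, hX, hpos b hb] at h3
        rw [hY, hpos c hc] at h3
        omega
      · omega
      · omega)
    (by
      intro b hb h a ha hba hX c hc hbc hY hE
      have hz1 : yo k B O b ^^^ yo k B O a < 2 ^ k := Nat.xor_lt_two_pow (hy b hb) (hy a ha)
      have hza : yo k B O b ^^^ (yo k B O b ^^^ yo k B O a) = yo k B O a := by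
        rw [← Nat.xor_assoc, Nat.xor_self, Nat.zero_xor]
      have hzc : xo k B O b ^^^ (yo k B O b ^^^ yo k B O a) = xo k B O c := by
        rw [← Nat.xor_assoc, hE, hY, Nat.xor_assoc, Nat.xor_self, Nat.xor_zero]
      rcases Nat.eq_zero_or_pos (yo k B O b ^^^ yo k B O a) with h0 | h0
      · rw [h0, Nat.xor_zero] at hza
        have := hinj b hb a ha hX.symm hza
        omega
      have hr := hceR b hb _ hz1 (by omega)
      rw [h] at hr
      rcases okAt_iff (H2 b hb _ hz1) with h3 | h3 | h3 | h3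
      · omega
      · omega
      · rw [hza, hzc, ← hX, hpos a ha, hY, hpos c hc] at h3
        omega
      · omega)
    (by
      intro c hc h a ha hca hY b hb hcb hX hE
      have hz1 : xo k B O c ^^^ xo k B O a < 2 ^ k := Nat.xor_lt_two_pow (hx c hc) (hx a ha)
      have hza : xo k B O c ^^^ (xo k B O c ^^^ xo k B O a) = xo k B O a := by
        rw [← Nat.xor_assoc, Nat.xor_self, Nat.zero_xor]
      have hyb : yo k B O c ^^^ (xo k B O c ^^^ xo k B O a) = yo k B O b := by
        rw [← Nat.xor_assoc, Nat.xor_comm (yo k B O c), ← hE, hX, Nat.xor_comm, ← Nat.xor_assoc,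
          Nat.xor_self, Nat.zero_xor]
      rcases Nat.eq_zero_or_pos (xo k B O c ^^^ xo k B O a) with h0 | h0
      · rw [h0, Nat.xor_zero] at hza
        have := hinj c hc a ha hza hY.symm
        omega
      have hr := hceR c hc _ hz1 (by omega)
      rw [h] at hr
      rcases okAt_iff (H2 c hc _ hz1) with h3 | h3 | h3 | h3
      · omega
      · omega
      · omega
      · rw [hza, hyb, ← hY, hpos a ha, hX, hpos b hb] at h3
        omega)
    hce
  have hD' : (0 : ℝ) < D := by exact_mod_cast hD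
  have norm : ∀ f : ℕ → ℕ, sumLt (fun i => f i ^ p) (2 ^ k) ≤ D ^ p →
      ∑ x : Fin k → ZMod 2, ((f (code x) : ℝ) / D) ^ p ≤ 1 := by
    intro f hf
    rw [sum_code k (fun i => ((f i : ℝ) / D) ^ p)]
    rw [sumLt_eq] at hf
    simp_rw [div_pow]
    rw [← sum_div, div_le_one (by positivity)]
    exact_mod_cast hf
  refine main hcert
    (fun x => (an (code x) : ℝ) / D) (fun x => (bn (code x) : ℝ) / D)
    (fun x => (cn (code x) : ℝ) / D)
    (fun x => by positivity) (fun x => by positivity) (fun x => by positivity) p q hp hq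
    (norm an ha) (norm bn hb) (norm cn hc) ?_
  have e : ∀ s : Fin m, ((an (code (bits k (xo k B O s))) : ℝ) / D *
      ((bn (code (bits k (yo k B O s))) : ℝ) / D)
      * ((cn (code (bits k (xo k B O s ^^^ yo k B O s))) : ℝ) / D)) ^ q
      = ((an (xo k B O s) * bn (yo k B O s) * cn (xo k B O s ^^^ yo k B O s) : ℕ) : ℝ) ^ q
        / (D : ℝ) ^ (3 * q) := by
    intro s
    rw [code_bits (hx s s.2), code_bits (hy s s.2), code_bits (hz s s.2), pow_mul, ← div_pow]
    congr 1
    push_cast
    field_simp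
  rw [sum_congr rfl (fun s _ => e s), ← sum_div, one_lt_div (by positivity)]
  rw [sumLt_eq, ← Fin.sum_univ_eq_sum_range (fun s => (an (xo k B O s) * bn (yo k B O s)
      * cn (xo k B O s ^^^ yo k B O s)) ^ q)] at hC
  exact_mod_cast hC

end Pool.Agent.Helper46.Corner
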